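import Pool.Agent.R69.Nice

/-!
# MP_a09a01_co: a finite family of oriented graphs containing an oriented forest that is not
eventually nice

The family `bad` consists of the directed path on four vertices (an oriented forest), the
transitive triangle and the cyclic triangle.
-/

set_option autoImplicit false

namespace Pool.Agent.Results.MP_a09a01_co.NotEventuallyNice

open Pool.Agent.R69.Nice

/-- The answer to Q1 is negative: it is not true that for every finite family of oriented graphs
with an oriented forest among its members there is `k₀` such that the family is `k`-nice for all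
`k ≥ k₀`. The finite family `bad` contains an oriented forest, and for every `k ≥ 1` its numbers
satisfy `q_k = 3 ^ k` and `p_k ≤ (2 / 3) q_k`, so `k`-niceness fails for infinitely many (all)
`k`. -/
theorem result :
    (¬ ∀ 𝓕 : Family, 𝓕.Finite → (∃ F ∈ 𝓕, F.2.IsForest) →
      ∃ k₀ : ℕ, ∀ k : ℕ, k₀ ≤ k → 1 ≤ k → IsNice 𝓕 k) ∧
    bad.Finite ∧ (∃ F ∈ bad, F.2.IsForest) ∧ {k : ℕ | 1 ≤ k ∧ ¬ IsNice bad k}.Infinite ∧
    ∀ k : ℕ, 1 ≤ k → q bad k = 3 ^ k ∧ 3 * p bad k ≤ 2 * q bad k := by
  have hF : ∃ F ∈ bad, F.2.IsForest := ⟨⟨4, dpath⟩, by simp [bad], dpath_forest⟩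
  refine ⟨fun h => ?_, bad_finite, hF, ?_, fun k hk => ⟨(main k hk).2, ?_⟩⟩
  · obtain ⟨k₀, h0⟩ := h bad bad_finite hF
    exact not_nice (k₀ + 1) (by omega) (h0 (k₀ + 1) (by omega) (by omega))
  · refine Set.infinite_of_not_bddAbove ?_
    rintro ⟨B, hB⟩
    have := hB (show B + 1 ∈ {k : ℕ | 1 ≤ k ∧ ¬ IsNice bad k} from
      ⟨by omega, not_nice (B + 1) (by omega)⟩)
    omega
  · obtain ⟨h1, h2⟩ := main k hk
    rw [h2]
    calc 3 * p bad k ≤ 3 * (2 * 3 ^ (k - 1)) := by gcongr
      _ = 2 * 3 ^ k := by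
        obtain ⟨k, rfl⟩ : ∃ k', k = k' + 1 := ⟨k - 1, by omega⟩
        rw [Nat.add_sub_cancel, pow_succ]
        ring

end Pool.Agent.Results.MP_a09a01_co.NotEventuallyNice
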